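import Pool.Agent.H93.KC.Targets

open Set Metric Filter Topology Bundle Manifold MeasureTheory
open scoped ContDiff

noncomputable section

namespace Pool.Agent.H93.KC

lemma chartAt_mfd (t : Tower) (x : t.Mfd) : chartAt (ℂ × ℂ) x = t.chart (t.idx x) := rfl

lemma extChartAt_mfd_coe (t : Tower) (x y : t.Mfd) :
    extChartAt 𝓘(ℝ, ℂ × ℂ) x y = t.c (t.idx x) y := rfl

lemma extChartAt_mfd_symm_coe (t : Tower) (x : t.Mfd) (y : E) :
    (extChartAt 𝓘(ℝ, ℂ × ℂ) x).symm y = t.ci (t.idx x) y := rfl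

theorem mfd (hT : T_TRANS) : T_MFD := by
  intro t _ i
  refine ⟨fun y hy => ?_, fun x hx => ?_⟩
  · have hxk : ‖t.c (t.idx (t.ci i y)) (t.ci i y)‖ < t.R (t.idx (t.ci i y)) := t.idx_spec _
    have hA := (hT t i (t.idx (t.ci i y)) y hy hxk).1
    have hw : writtenInExtChartAt 𝓘(ℝ, ℂ × ℂ) 𝓘(ℝ, ℂ × ℂ) y (t.chart i).symm
        = fun y' => t.c (t.idx (t.ci i y)) (t.ci i y') := by
      funext y'
      rfl
    have hd : DifferentiableAt ℂ (fun y' => t.c (t.idx (t.ci i y)) (t.ci i y')) y :=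
      hA.differentiableAt
    have hmd : MDifferentiableAt 𝓘(ℝ, ℂ × ℂ) 𝓘(ℝ, ℂ × ℂ) (t.chart i).symm y := by
      rw [mdifferentiableAt_iff]
      refine ⟨?_, ?_⟩
      · exact (t.smooth' i).continuous.continuousAt
      · rw [hw]
        exact (hd.restrictScalars ℝ).differentiableWithinAt
    refine ⟨hmd, fun v => ?_⟩
    rw [hmd.mfderiv, hw]
    simp only [modelWithCornersSelf_coe, range_id, fderivWithin_univ]
    have h2 : fderiv ℝ (fun y' => t.c (t.idx (t.ci i y)) (t.ci i y')) y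
        = (fderiv ℂ (fun y' => t.c (t.idx (t.ci i y)) (t.ci i y')) y).restrictScalars ℝ :=
      (hd.hasFDerivAt.restrictScalars ℝ).fderiv
    have h3 : extChartAt 𝓘(ℝ, ℂ × ℂ) y y = y := rfl
    rw [h3, h2]
    rfl
  · have hxk : ‖t.c (t.idx x) x‖ < t.R (t.idx x) := t.idx_spec _
    have hx2 : ‖t.c i (t.ci (t.idx x) (t.c (t.idx x) x))‖ < t.R i := by rw [t.left]; exact hx
    have hA := (hT t (t.idx x) i (t.c (t.idx x) x) hxk hx2).1
    have hw : writtenInExtChartAt 𝓘(ℝ, ℂ × ℂ) 𝓘(ℝ, ℂ × ℂ) x (t.chart i)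
        = fun y' => t.c i (t.ci (t.idx x) y') := by
      funext y'
      rfl
    have hd : DifferentiableAt ℂ (fun y' => t.c i (t.ci (t.idx x) y')) (t.c (t.idx x) x) :=
      hA.differentiableAt
    have h3 : extChartAt 𝓘(ℝ, ℂ × ℂ) x x = t.c (t.idx x) x := rfl
    have hmd : MDifferentiableAt 𝓘(ℝ, ℂ × ℂ) 𝓘(ℝ, ℂ × ℂ) (t.chart i) x := by
      rw [mdifferentiableAt_iff]
      refine ⟨?_, ?_⟩
      · exact (t.smooth i).continuous.continuousAt
      · rw [hw, h3]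
        exact (hd.restrictScalars ℝ).differentiableWithinAt
    refine ⟨hmd, fun v => ?_⟩
    rw [hmd.mfderiv, hw]
    simp only [modelWithCornersSelf_coe, range_id, fderivWithin_univ]
    have h2 : fderiv ℝ (fun y' => t.c i (t.ci (t.idx x) y')) (t.c (t.idx x) x)
        = (fderiv ℂ (fun y' => t.c i (t.ci (t.idx x) y')) (t.c (t.idx x) x)).restrictScalars ℝ :=
      (hd.hasFDerivAt.restrictScalars ℝ).fderiv
    rw [h3, h2]
    rfl

end Pool.Agent.H93.KC
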