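import Mathlib

/-!
# A complete Kaehler surface diffeomorphic to ℂ² without nonconstant holomorphic functions

Definitions. `E = ℂ × ℂ` (sup norm, balls are polydiscs).
-/

open Set Metric Filter Topology Bundle Manifold
open scoped ContDiff

noncomputable section

namespace Pool.Agent.H93.KC

abbrev E := ℂ × ℂ

/-- multiplication by `i` as a real linear map -/
def J : E →L[ℝ] E := (ContinuousLinearMap.lsmul ℝ ℂ Complex.I : E →L[ℝ] E)

/-- real Hessian -/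
def hess (u : E → ℝ) (x : E) : E →L[ℝ] E →L[ℝ] ℝ := fderiv ℝ (fderiv ℝ u) x

/-- `herm u x v w = D²u(v,w) + D²u(iv,iw)` -/
def herm (u : E → ℝ) (x : E) : E →L[ℝ] E →L[ℝ] ℝ :=
  hess u x + (hess u x).bilinearComp J J

/-! ## The Stolzenberg type compact sets -/

def aF (z : ℂ) : ℂ := Complex.exp (z * (Real.log 2 : ℝ))
def bF (z : ℂ) : ℂ := 8 * (z ^ 2 - 1)

def G1 : Set ℂ := {z | ‖z - 1‖ = 2 ∧ 1 / 100 ≤ ‖z + 1‖}
def G2 : Set ℂ := {z | ‖z + 1‖ = 2 ∧ 1 / 100 ≤ ‖z - 1‖}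

/-- the set whose hull is large -/
def Y : Set E := {x | x.1 ∈ G1 ∧ ‖x.2 - bF x.1‖ ≤ ‖aF x.1‖} ∪ {x | x.1 ∈ G2 ∧ ‖x.2‖ ≤ 1}

def X : Set E := {x | ‖x.1 - 1‖ ≤ 2 ∧ ‖x.2 - bF x.1‖ ≤ ‖aF x.1‖} ∪ {x | ‖x.1 + 1‖ ≤ 2 ∧ ‖x.2‖ ≤ 1}

def q : E := (1 / 2, 0)

/-! ## Automorphisms of `{z ≠ 0}` -/

def Zne : Set E := {x | x.1 ≠ 0}

inductive Aut : (E → E) → (E → E) → Prop
  | zshear (p : Polynomial ℂ) :
      Aut (fun x => (x.1 * Complex.exp (p.eval x.2), x.2))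
        (fun x => (x.1 * Complex.exp (-p.eval x.2), x.2))
  | wshear (p : Polynomial ℂ) (N : ℕ) :
      Aut (fun x => (x.1, x.2 + p.eval x.1 / x.1 ^ N)) (fun x => (x.1, x.2 - p.eval x.1 / x.1 ^ N))
  | scale (c : ℂ) (hc : c ≠ 0) :
      Aut (fun x => (x.1, c * x.2)) (fun x => (x.1, c⁻¹ * x.2))
  | comp (Φ Ψ Φ' Ψ' : E → E) (h : Aut Φ Ψ) (h' : Aut Φ' Ψ') : Aut (Φ' ∘ Φ) (Ψ ∘ Ψ')

/-- automorphisms of `{z ≠ 0}` map `A` into small neighbourhoods of `A'` and `a` close to `a'` -/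
def Link (A : Set E) (a : E) (A' : Set E) (a' : E) : Prop :=
  ∀ ε > 0, ∃ Φ Ψ, Aut Φ Ψ ∧ (∀ x ∈ A, ∃ y ∈ A', dist (Φ x) y < ε) ∧ dist (Φ a) a' < ε

/-- `4 • G1` -/
def G4 : Set ℂ := {z | ‖z - 4‖ = 8 ∧ 1 / 25 ≤ ‖z + 4‖}

def A1 : Set E := {x | x.1 ∈ G1 ∧ ‖x.2 + 32‖ ≤ 8} ∪ {x | x.1 ∈ G2 ∧ ‖x.2‖ ≤ 1}
def A2 : Set E := {x | x.1 ∈ G4 ∧ ‖x.2 + 32‖ ≤ 8} ∪ {x | x.1 ∈ G2 ∧ ‖x.2‖ ≤ 1}
def A3 : Set E := {x | x.1 ∈ G4 ∪ G2 ∧ x.2 = 0}
def A4 : Set E := {x | x.1 ∈ G4 ∪ G2 ∧ x.2 = x.1}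
def A5 : Set E := {x | x.1 = 1 ∧ x.2 ∈ G4 ∪ G2}

/-! ## One step of the construction -/

/-- the analytic data of one step: `φ` is a smooth diffeomorphism of `E` with inverse `ψ`,
biholomorphic near the closed polydisc of radius `R + 1`, mapping it into `{z ≠ 0}`, and the
coordinates on the polydisc are uniform limits of functions `(entire) / z ^ N` on its image -/
structure Step (R : ℝ) (φ ψ : E → E) : Prop where
  smooth : ContDiff ℝ ∞ φ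
  smooth' : ContDiff ℝ ∞ ψ
  left : ∀ x, ψ (φ x) = x
  right : ∀ x, φ (ψ x) = x
  hol : AnalyticOnNhd ℂ φ (closedBall 0 (R + 1))
  hol' : AnalyticOnNhd ℂ ψ (φ '' closedBall 0 (R + 1))
  ne : ∀ x ∈ closedBall (0 : E) (R + 1), (φ x).1 ≠ 0
  approx : ∀ ε > 0, ∃ (P Q : E → ℂ) (N : ℕ), AnalyticOnNhd ℂ P univ ∧ AnalyticOnNhd ℂ Q univ ∧
    ∀ x ∈ closedBall (0 : E) (R + 1),
      ‖x.1 - P (φ x) / (φ x).1 ^ N‖ < ε ∧ ‖x.2 - Q (φ x) / (φ x).1 ^ N‖ < ε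

/-! ## Strictly plurisubharmonic functions -/

structure Spsh (u : E → ℝ) : Prop where
  smooth : ContDiff ℝ ∞ u
  pos : ∀ x v : E, v ≠ 0 → 0 < herm u x v v

/-! ## The tower -/

structure Tower where
  R : ℕ → ℝ
  c : ℕ → E → E
  ci : ℕ → E → E
  u : ℕ → E → ℝ
  R_zero : 2 ≤ R 0
  c_zero : ∀ x, c 0 x = x
  smooth : ∀ j, ContDiff ℝ ∞ (c j)
  smooth' : ∀ j, ContDiff ℝ ∞ (ci j)
  left : ∀ j x, ci j (c j x) = x
  right : ∀ j x, c j (ci j x) = x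
  hol : ∀ j, AnalyticOnNhd ℂ (fun y => c (j + 1) (ci j y)) (closedBall 0 (R j))
  hol' : ∀ j, ∀ y ∈ closedBall 0 (R j),
    AnalyticAt ℂ (fun y' => c j (ci (j + 1) y')) (c (j + 1) (ci j y))
  spsh : ∀ j, Spsh (u j)
  compat : ∀ j, ∀ y ∈ closedBall 0 (R j), ∀ v w : E,
    herm (u (j + 1)) (c (j + 1) (ci j y)) (fderiv ℂ (fun y' => c (j + 1) (ci j y')) y v)
      (fderiv ℂ (fun y' => c (j + 1) (ci j y')) y w) = herm (u j) y v w
  /-- nestedness and the growth of the metric -/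
  far : ∀ j, ∃ ρ m : ℝ, 0 < m ∧ 1 ≤ m * (R (j + 1) - ρ) ∧
    (∀ x, ‖c j x‖ ≤ R j → ‖c (j + 1) x‖ ≤ ρ) ∧
    ∀ y, ρ ≤ ‖y‖ → ∀ v : E, m ^ 2 * ‖v‖ ^ 2 ≤ herm (u (j + 1)) y v v
  exh : ∀ x, ∃ j, ‖c j x‖ < R j
  /-- for a dense set of points `x` there is a chart in which `x` lies in the hull of the
  unit polydisc of the first chart -/
  hull : Dense {x : E | ∃ j, 100 ≤ R j ∧ c j x = q ∧ Y ⊆ c j '' closedBall 0 1}

namespace Tower

variable (t : Tower)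

/-- the manifold: `ℂ²` with a new atlas -/
def Mfd (_ : Tower) : Type := ℂ × ℂ

instance : TopologicalSpace t.Mfd := inferInstanceAs (TopologicalSpace (ℂ × ℂ))
instance : T3Space t.Mfd := inferInstanceAs (T3Space (ℂ × ℂ))

/-- the chart number `j`, defined on `{‖c j x‖ < R j}` -/
def chart (j : ℕ) : OpenPartialHomeomorph t.Mfd E where
  toFun := t.c j
  invFun := t.ci j
  source := {x : E | ‖t.c j x‖ < t.R j}
  target := {y : E | ‖y‖ < t.R j}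
  map_source' := fun x hx => hx
  map_target' := fun y hy => by
    show ‖t.c j (t.ci j y)‖ < t.R j
    rw [t.right]; exact hy
  left_inv' := fun x _ => t.left j x
  right_inv' := fun y _ => t.right j y
  open_source := isOpen_lt (t.smooth j).continuous.norm continuous_const
  open_target := isOpen_lt continuous_norm continuous_const
  continuousOn_toFun := (t.smooth j).continuous.continuousOn
  continuousOn_invFun := (t.smooth' j).continuous.continuousOn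

/-- the least index of a chart containing `x` -/
def idx (x : E) : ℕ := by
  classical exact Nat.find (t.exh x)

lemma idx_spec (x : E) : ‖t.c (t.idx x) x‖ < t.R (t.idx x) := by
  classical
  unfold idx
  exact Nat.find_spec (t.exh x)

instance : ChartedSpace E t.Mfd where
  atlas := range t.chart
  chartAt := fun x => t.chart (t.idx x)
  mem_chart_source := fun x => t.idx_spec x
  chart_mem_atlas := fun _ => mem_range_self _

/-- the metric at `x` -/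
def inn (x : E) : E →L[ℝ] E →L[ℝ] ℝ := herm (t.u (t.idx x)) (t.c (t.idx x) x)

end Tower

/-! ## The final statement -/

section Kaehler

variable {M : Type} [TopologicalSpace M] [ChartedSpace (ℂ × ℂ) M]

/-- Multiplication by `i` on the tangent space of a complex manifold. The tangent space at `x` of
the underlying real manifold and that of the complex manifold are the same copy of `ℂ × ℂ`. -/
def Jt (x : M) (v : TangentSpace 𝓘(ℝ, ℂ × ℂ) x) : TangentSpace 𝓘(ℝ, ℂ × ℂ) x :=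
  (Complex.I • (show TangentSpace 𝓘(ℂ, ℂ × ℂ) x from v) : TangentSpace 𝓘(ℂ, ℂ × ℂ) x)

variable [RiemannianBundle (fun x : M => TangentSpace 𝓘(ℝ, ℂ × ℂ) x)]

/-- The fundamental form `ω(v, w) = ⟨i v, w⟩` of a Riemannian metric, read in a chart `e`. -/
def fundForm (e : OpenPartialHomeomorph M (ℂ × ℂ)) (y v w : ℂ × ℂ) : ℝ :=
  inner ℝ (Jt (e.symm y) (mfderiv 𝓘(ℝ, ℂ × ℂ) 𝓘(ℝ, ℂ × ℂ) e.symm y v))
    (mfderiv 𝓘(ℝ, ℂ × ℂ) 𝓘(ℝ, ℂ × ℂ) e.symm y w)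

variable (M) in
/-- A Riemannian metric on a complex manifold is Kaehler: it is invariant under multiplication by
`i`, and its fundamental two-form `ω(v, w) = ⟨i v, w⟩`, read in any chart of the atlas, is
closed (the cyclic sum of the derivatives is `dω(a, b, c)`). -/
structure IsKaehler : Prop where
  hermitian : ∀ (x : M) (v w : TangentSpace 𝓘(ℝ, ℂ × ℂ) x),
    inner ℝ (Jt x v) (Jt x w) = inner ℝ v w
  closed : ∀ e ∈ atlas (ℂ × ℂ) M, ∀ y ∈ e.target, ∀ a b c : ℂ × ℂ,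
    fderiv ℝ (fun y' => fundForm e y' b c) y a + fderiv ℝ (fun y' => fundForm e y' c a) y b
      + fderiv ℝ (fun y' => fundForm e y' a b) y c = 0

end Kaehler

/-- The answer: there is a complete Kaehler manifold of complex dimension two, diffeomorphic to
`ℂ²`, on which every holomorphic function is constant. -/
def Answer : Prop :=
  ∃ (M : Type) (_ : EMetricSpace M) (_ : ChartedSpace (ℂ × ℂ) M)
    (_ : RiemannianBundle (fun x : M => TangentSpace 𝓘(ℝ, ℂ × ℂ) x))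
    (_ : IsManifold 𝓘(ℝ, ℂ × ℂ) ∞ M),
    IsManifold 𝓘(ℂ, ℂ × ℂ) ω M ∧
    IsContMDiffRiemannianBundle 𝓘(ℝ, ℂ × ℂ) ∞ (ℂ × ℂ)
      (fun x : M => TangentSpace 𝓘(ℝ, ℂ × ℂ) x) ∧
    IsRiemannianManifold 𝓘(ℝ, ℂ × ℂ) M ∧
    IsKaehler M ∧
    CompleteSpace M ∧
    Nonempty (Diffeomorph 𝓘(ℝ, ℂ × ℂ) 𝓘(ℝ, ℂ × ℂ) M (ℂ × ℂ) ∞) ∧
    ∀ f : M → ℂ, MDifferentiable 𝓘(ℂ, ℂ × ℂ) 𝓘(ℂ, ℂ) f → ∀ x y : M, f x = f y

end Pool.Agent.H93.KC
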