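import Pool.Agent.H93.KC.Targets

open Set Metric Filter Topology Bundle Manifold MeasureTheory
open scoped ContDiff

noncomputable section

namespace Pool.Agent.H93.KC

theorem fin (hs : T_SEQ) (hmc : T_MANC) (hmr : T_MANR) (hd : T_DIFF) (hr : T_RIEM) (hk : T_KAH)
    (hdist : T_DIST) (hcomp : T_COMP) (hn : T_NOHOL) : T_FIN := by
  obtain ⟨t⟩ := hs
  have i1 : IsManifold 𝓘(ℂ, ℂ × ℂ) ω t.Mfd := hmc t
  have i2 : IsManifold 𝓘(ℝ, ℂ × ℂ) ∞ t.Mfd := hmr t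
  obtain ⟨g, hg⟩ := hr t
  let rb : RiemannianBundle (fun x : t.Mfd => TangentSpace 𝓘(ℝ, ℂ × ℂ) x) :=
    ⟨g.toRiemannianMetric⟩
  have hin : ∀ (x : t.Mfd) (v w : TangentSpace 𝓘(ℝ, ℂ × ℂ) x), inner ℝ v w = t.inn x v w := by
    intro x v w
    rw [← hg x v w]
    rfl
  have i3 : IsContMDiffRiemannianBundle 𝓘(ℝ, ℂ × ℂ) ∞ (ℂ × ℂ)
      (fun x : t.Mfd => TangentSpace 𝓘(ℝ, ℂ × ℂ) x) := inferInstance
  have i5 : IsManifold 𝓘(ℝ, ℂ × ℂ) 1 t.Mfd := inferInstance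
  have i4 : IsContinuousRiemannianBundle (ℂ × ℂ)
      (fun x : t.Mfd => TangentSpace 𝓘(ℝ, ℂ × ℂ) x) :=
    ⟨g.inner, g.contMDiff.continuous, fun _ _ _ => rfl⟩
  have hdist' := hdist t hin
  let m : EMetricSpace t.Mfd := EMetricSpace.ofRiemannianMetric 𝓘(ℝ, ℂ × ℂ) t.Mfd
  refine ⟨t.Mfd, m, (inferInstance : ChartedSpace (ℂ × ℂ) t.Mfd), rb, i2, i1, i3, ?_, ?_, ?_,
    hd t, fun f hf x y => hn t f hf x y⟩
  · exact ⟨fun x y => rfl⟩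
  · exact hk t hin
  · exact hcomp t m rfl hdist'

end Pool.Agent.H93.KC
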