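import Pool.Agent.H93.KC.Mfd

open Set Metric Filter Topology Bundle Manifold MeasureTheory Bornology
open scoped ContDiff

noncomputable section

namespace Pool.Agent.H93.KC

/-- a positive definite form on `E` has a bounded unit ball -/
lemma bdd_of_posdef (B : E →L[ℝ] E →L[ℝ] ℝ) (hB : ∀ v, v ≠ 0 → 0 < B v v) :
    IsVonNBounded ℝ {v : E | B v v < 1} := by
  have hcont : Continuous fun v : E => B v v := by fun_prop
  have hcomp : IsCompact (sphere (0 : E) 1) := isCompact_sphere _ _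
  have hne : (sphere (0 : E) 1).Nonempty := NormedSpace.sphere_nonempty.2 zero_le_one
  obtain ⟨v₀, hv₀, hmin⟩ := hcomp.exists_isMinOn hne hcont.continuousOn
  have hv₀n : ‖v₀‖ = 1 := by simpa using hv₀
  have hc : 0 < B v₀ v₀ := hB v₀ (by intro h; rw [h] at hv₀n; simp at hv₀n)
  have key : ∀ v : E, B v₀ v₀ * ‖v‖ ^ 2 ≤ B v v := by
    intro v
    by_cases hv : v = 0
    · simp [hv]
    have hvn : 0 < ‖v‖ := norm_pos_iff.2 hv
    have h1 : (‖v‖⁻¹ • v) ∈ sphere (0 : E) 1 := by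
      simp only [mem_sphere_iff_norm, sub_zero, norm_smul, norm_inv, norm_norm]
      exact inv_mul_cancel₀ hvn.ne'
    have h2 := hmin h1
    simp only [mem_ofPred_eq, map_smul, _root_.smul_apply, smul_eq_mul] at h2
    have h3 : B v₀ v₀ ≤ ‖v‖⁻¹ * (‖v‖⁻¹ * B v v) := h2
    calc B v₀ v₀ * ‖v‖ ^ 2 ≤ (‖v‖⁻¹ * (‖v‖⁻¹ * B v v)) * ‖v‖ ^ 2 := by
          gcongr
      _ = B v v := by
          field_simp
  rw [NormedSpace.isVonNBounded_iff]
  refine isBounded_iff_forall_norm_le.2 ⟨Real.sqrt (1 / B v₀ v₀), fun v hv => ?_⟩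
  apply Real.le_sqrt_of_sq_le
  rw [le_div_iff₀ hc]
  have := key v
  have hv' : B v v < 1 := hv
  nlinarith [this, hv']

theorem riem (hT : T_TRANS) (hL : T_LIN) : T_RIEM := by
  intro t _
  have hsm : ∀ j, ContDiff ℝ 2 (t.u j) := fun j => by
    exact_mod_cast (contDiff_infty.1 (t.spsh j).smooth 2)
  refine ⟨{ inner := fun x => t.inn x
            symm := fun x v w => hL.2.2.2.1 _ _ (hsm _).contDiffAt v w
            pos := fun x v hv => (t.spsh _).pos _ v hv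
            isVonNBounded := fun x => ?_
            contMDiff := ?_ }, fun x v w => rfl⟩
  · exact bdd_of_posdef _ (fun v hv => (t.spsh _).pos _ v hv)
  · intro x₀
    rw [contMDiffAt_section]
    set i := t.idx x₀ with hi
    have hev : ∀ᶠ x in 𝓝 x₀, (trivializationAt ((ℂ × ℂ) →L[ℝ] (ℂ × ℂ) →L[ℝ] ℝ)
        (fun x : t.Mfd => TangentSpace 𝓘(ℝ, ℂ × ℂ) x →L[ℝ] TangentSpace 𝓘(ℝ, ℂ × ℂ) x →L[ℝ] ℝ) x₀
        ⟨x, t.inn x⟩).2 = herm (t.u i) (t.c i x) := by
      have hsrc : ∀ᶠ x in 𝓝 x₀, ‖t.c i x‖ < t.R i :=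
        (t.smooth i).continuous.norm.continuousAt.eventually_lt_const (t.idx_spec x₀)
      filter_upwards [hsrc] with x hx
      have hx' : x ∈ (chartAt (ℂ × ℂ) x₀).source := hx
      have hb : x ∈ (trivializationAt (ℂ × ℂ)
          (fun x : t.Mfd => TangentSpace 𝓘(ℝ, ℂ × ℂ) x) x₀).baseSet := hx'
      have hsym : ∀ v : E, (trivializationAt (ℂ × ℂ)
          (fun x : t.Mfd => TangentSpace 𝓘(ℝ, ℂ × ℂ) x) x₀).symm x v
          = fderiv ℂ (fun y' => t.c (t.idx x) (t.ci i y')) (t.c i x) v := by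
        intro v
        have h1 := TangentBundle.symmL_trivializationAt_eq_core (I := 𝓘(ℝ, ℂ × ℂ)) hx'
        have h2 := congrArg (fun L => L v) h1
        have h4 : DifferentiableAt ℂ (fun y' => t.c (t.idx x) (t.ci i y')) (t.c i x) :=
          (hT t i (t.idx x) (t.c i x) hx (by rw [t.left]; exact t.idx_spec x)).1.differentiableAt
        have h5 : fderiv ℝ (fun y' => t.c (t.idx x) (t.ci i y')) (t.c i x)
            = (fderiv ℂ (fun y' => t.c (t.idx x) (t.ci i y')) (t.c i x)).restrictScalars ℝ :=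
          (h4.hasFDerivAt.restrictScalars ℝ).fderiv
        rw [Trivialization.symmL_apply _ hb] at h2
        refine h2.trans ?_
        rw [tangentBundleCore_coordChange_achart]
        have h6 : (extChartAt 𝓘(ℝ, ℂ × ℂ) x ∘ (extChartAt 𝓘(ℝ, ℂ × ℂ) x₀).symm)
            = fun y' => t.c (t.idx x) (t.ci i y') := rfl
        have h7 : extChartAt 𝓘(ℝ, ℂ × ℂ) x₀ x = t.c i x := rfl
        rw [h6, h7]
        simp only [modelWithCornersSelf_coe, range_id, fderivWithin_univ]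
        rw [h5]
        rfl
      rw [hom_trivializationAt_apply]
      refine ContinuousLinearMap.ext fun v => ContinuousLinearMap.ext fun w => ?_
      have h8 := inCoordinates_apply_eq₂ (𝕜 := ℝ) (F₁ := ℂ × ℂ) (F₂ := ℂ × ℂ)
        (F₃ := ℝ) (E₁ := fun x : t.Mfd => TangentSpace 𝓘(ℝ, ℂ × ℂ) x)
        (E₂ := fun x : t.Mfd => TangentSpace 𝓘(ℝ, ℂ × ℂ) x) (E₃ := Bundle.Trivial t.Mfd ℝ)
        (x₀ := x₀) (x := x) (ϕ := t.inn x) (v := v) (w := w) hb hb (mem_univ _)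
      refine h8.trans ?_
      rw [hsym, hsym]
      have h9 := (hT t i (t.idx x) (t.c i x) hx (by rw [t.left]; exact t.idx_spec x)).2 v w
      rw [t.left] at h9
      have h10 : ∀ r : ℝ, (trivializationAt ℝ (Bundle.Trivial t.Mfd ℝ) x₀).linearMapAt ℝ x r = r := by
        intro r
        simp
      rw [h10]
      exact h9
    have hsmooth : ContMDiffAt 𝓘(ℝ, ℂ × ℂ) 𝓘(ℝ, (ℂ × ℂ) →L[ℝ] (ℂ × ℂ) →L[ℝ] ℝ) ∞
        (fun x : t.Mfd => herm (t.u i) (t.c i x)) x₀ := by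
      have h1 : ContDiff ℝ ∞ (herm (t.u i)) := hL.2.2.2.2.2 _ (t.spsh i).smooth
      have h2 : ContMDiffAt 𝓘(ℝ, ℂ × ℂ) 𝓘(ℝ, ℂ × ℂ) ∞ (fun x : t.Mfd => t.c i x) x₀ :=
        contMDiffAt_extChartAt (I := 𝓘(ℝ, ℂ × ℂ)) (x := x₀)
      exact (h1.contMDiff.contMDiffAt).comp x₀ h2
    exact hsmooth.congr_of_eventuallyEq hev

end Pool.Agent.H93.KC
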