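import Pool.Agent.H19.KC.Hull
import Pool.Agent.H19.KC.Push
import Pool.Agent.H93.KC.CauMod
import Pool.Agent.H24.KC.HR
import Pool.Agent.H24.KC.GAM
import Pool.Agent.H24.KC.CONZ
import Pool.Agent.H27.KC.Alg
import Pool.Agent.H27.KC.AutB
import Pool.Agent.H27.KC.AutX
import Pool.Agent.H33.KC.Lin
import Pool.Agent.H33.KC.Logs
import Pool.Agent.H33.KC.Pull
import Pool.Agent.H62.KC.EMB
import Pool.Agent.H62.KC.LA
import Pool.Agent.H62.KC.LB
import Pool.Agent.H62.KC.LC
import Pool.Agent.H62.KC.LE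
import Pool.Agent.H62.KC.LF
import Pool.Agent.H62.KC.XI
import Pool.Agent.H69.KC.Cong
import Pool.Agent.H69.KC.Nohol
import Pool.Agent.H69.KC.Seq
import Pool.Agent.H70.KC.GFUN
import Pool.Agent.H70.KC.KEXT
import Pool.Agent.H70.KC.LOGH
import Pool.Agent.H70.KC.SFUN
import Pool.Agent.H70.KC.SQ
import Pool.Agent.H74.KC.Comp
import Pool.Agent.H74.KC.Dist
import Pool.Agent.H74.KC.Kah
import Pool.Agent.H74.KC.Man
import Pool.Agent.H87.KC.Geo
import Pool.Agent.H87.KC.Link
import Pool.Agent.H28.KC.Nest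
import Pool.Agent.H28.KC.Trans
import Pool.Agent.H93.KC.Riem
import Pool.Agent.H93.KC.Fin

/-!
Assembly for MP_64e65e_gt. Modules by helpers 19, 24, 27, 28, 33, 62, 69, 70, 74, 87, 93.
-/

noncomputable section

namespace Pool.Agent.H93.KC

open Pool.Agent

theorem t_geo : T_GEO := H87.KC.geo
theorem t_hull : T_HULL := H19.KC.hull t_geo
theorem t_autb : T_AUTB := H27.KC.autb
theorem t_autx : T_AUTX := H27.KC.autx
theorem t_alg : T_ALG := H27.KC.alg
theorem t_link : T_LINK := H87.KC.link t_autb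
theorem t_cau : T_CAU := H93.KCA.cau
theorem t_hr : T_HR := H24.KC.hr t_cau
theorem t_push : T_PUSH := H19.KC.push
theorem t_cong : T_CONG := H69.KC.cong
theorem t_conz : T_CONZ := H24.KC.conz
theorem t_gam : T_GAM := H24.KC.gam t_hr t_push t_cong
theorem t_zed : T_ZED := H24.KC.zed t_hr t_push t_conz
theorem t_la : T_LA := H62.KC.la t_gam
theorem t_le : T_LE := H62.KC.le t_zed
theorem t_xi : T_XI := H62.KC.xi t_geo t_link t_la t_le
theorem t_emb : T_EMB := H62.KC.emb t_geo t_autb t_autx t_alg t_xi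
theorem t_pull : T_PULL := H33.KC.pull
theorem t_lin : T_LIN := H33.KC.lin
theorem t_chain : T_CHAIN := H33.KC.chain
theorem t_sq : T_SQ := H70.KC.sq
theorem t_logs : T_LOGS := H33.KC.logs t_sq
theorem t_logh : T_LOGH := H70.KC.logh
theorem t_lam : T_LAM := H70.KC.lam
theorem t_sfun : T_SFUN := H70.KC.sfun t_logs t_sq t_lin
theorem t_gfun : T_GFUN := H70.KC.gfun t_sfun t_lam t_chain t_logh t_lin
theorem t_nest : T_NEST := H28.KC.nest
theorem t_trans : T_TRANS := H28.KC.trans t_nest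

theorem t_kext : T_KEXT := H70.KC.kext t_gfun t_pull t_lin t_logh

theorem answer : Answer :=
  fin (H69.KC.seq t_emb t_kext t_sq) manc manr diff (riem t_trans t_lin)
    (kah t_lin) dist comp (H69.KC.nohol t_hull t_geo)

end Pool.Agent.H93.KC
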