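import Pool.Agent.H93.KC.Defs

/-!
# Targets of the modules for MP_64e65e_gt

See team-store H93_KC_blueprint.md.
-/

open Set Metric Filter Topology Bundle Manifold MeasureTheory
open scoped ContDiff

noncomputable section

namespace Pool.Agent.H93.KC

/-! ## Part 1: the sets -/

/-- GEO -/
def T_GEO : Prop :=
  IsCompact Y ∧ Y ⊆ Zne ∧ Y ⊆ X ∧ IsCompact X ∧ X ⊆ ball 0 100 ∧ q ∈ X ∧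
  IsCompact A1 ∧ A1 ⊆ Zne ∧ IsCompact A2 ∧ A2 ⊆ Zne ∧ IsCompact A3 ∧ A3 ⊆ Zne ∧
  IsCompact A4 ∧ A4 ⊆ Zne ∧ IsCompact A5 ∧ A5 ⊆ Zne

/-- HULL -/
def T_HULL : Prop :=
  ∀ (F : E → ℂ) (U : Set E), IsOpen U → X ⊆ U → DifferentiableOn ℂ F U →
    ∀ x ∈ X, ∃ y ∈ Y, ‖F x‖ ≤ ‖F y‖

/-! ## Part 2: automorphisms -/

/-- AUTB -/
def T_AUTB : Prop :=
  ∀ Φ Ψ : E → E, Aut Φ Ψ → Aut Ψ Φ ∧ MapsTo Φ Zne Zne ∧ MapsTo Ψ Zne Zne ∧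
    (∀ x ∈ Zne, Ψ (Φ x) = x) ∧ (∀ x ∈ Zne, Φ (Ψ x) = x) ∧
    AnalyticOnNhd ℂ Φ Zne ∧ AnalyticOnNhd ℂ Ψ Zne

/-- AUTX: an automorphism agrees near a compact set with a global smooth diffeomorphism -/
def T_AUTX : Prop :=
  ∀ Φ Ψ : E → E, Aut Φ Ψ → ∀ L : Set E, IsCompact L → L ⊆ Zne →
    ∃ F G : E → E, ContDiff ℝ ∞ F ∧ ContDiff ℝ ∞ G ∧ (∀ x, G (F x) = x) ∧ (∀ x, F (G x) = x) ∧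
      ∀ᶠ x in 𝓝ˢ L, F x = Φ x

/-- ALG: the components are uniform limits of (entire)/z^N on compact sets -/
def T_ALG : Prop :=
  ∀ Φ Ψ : E → E, Aut Φ Ψ → ∀ L : Set E, IsCompact L → L ⊆ Zne → ∀ ε > 0,
    ∃ (P Q : E → ℂ) (N : ℕ), AnalyticOnNhd ℂ P univ ∧ AnalyticOnNhd ℂ Q univ ∧
      ∀ x ∈ L, ‖(Φ x).1 - P x / x.1 ^ N‖ < ε ∧ ‖(Φ x).2 - Q x / x.1 ^ N‖ < ε

/-- LINK: composition -/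
def T_LINK : Prop :=
  ∀ (A A' A'' : Set E) (a a' a'' : E), IsCompact A' → A' ⊆ Zne → a' ∈ Zne →
    Link A a A' a' → Link A' a' A'' a'' → Link A a A'' a''

/-! ## Part 3: one variable approximation -/

/-- CAU: for a compact null set `K`, the function `z̄` lies in every closed subspace of `C(K)`
containing all functions `1/(z - a)`, `a ∉ K` -/
def T_CAU : Prop :=
  ∀ K : Set ℂ, IsCompact K → volume K = 0 → ∀ S : Submodule ℂ C(K, ℂ),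
    IsClosed (S : Set C(K, ℂ)) →
    (∀ a, a ∉ K → ∃ f ∈ S, ∀ z : K, f z * ((z : ℂ) - a) = 1) →
    ∃ f ∈ S, ∀ z : K, f z = (starRingEnd ℂ) (z : ℂ)

/-- HR (Hartogs-Rosenthal) -/
def T_HR : Prop :=
  ∀ K : Set ℂ, IsCompact K → volume K = 0 → ∀ A : Subalgebra ℂ C(K, ℂ),
    IsClosed (A : Set C(K, ℂ)) → (∃ f ∈ A, ∀ z : K, f z = z) →
    (∀ a, a ∉ K → ∃ f ∈ A, ∀ z : K, f z * ((z : ℂ) - a) = 1) → A = ⊤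

/-- PUSH (pole pushing) -/
def T_PUSH : Prop :=
  ∀ K : Set ℂ, IsCompact K → ∀ A : Subalgebra ℂ C(K, ℂ),
    IsClosed (A : Set C(K, ℂ)) → (∃ f ∈ A, ∀ z : K, f z = z) →
    (∀ a : ℂ, (∀ z ∈ K, ‖z‖ < ‖a‖) → ∃ f ∈ A, ∀ z : K, f z * ((z : ℂ) - a) = 1) ∧
    (∀ C : Set ℂ, IsPreconnected C → C ⊆ Kᶜ → ∀ a ∈ C, ∀ b ∈ C,
      (∃ f ∈ A, ∀ z : K, f z * ((z : ℂ) - a) = 1) →
      ∃ f ∈ A, ∀ z : K, f z * ((z : ℂ) - b) = 1)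

/-- CONG: the complement of `G1 ∪ G2` -/
def T_CONG : Prop :=
  ∀ a : ℂ, a ∉ G1 ∪ G2 → ∃ C : Set ℂ, IsPreconnected C ∧ C ⊆ (G1 ∪ G2)ᶜ ∧ a ∈ C ∧
    ((0 : ℂ) ∈ C ∨ ∃ b ∈ C, 3 < ‖b‖)

/-- CONZ: the complement of `G4 ∪ G2` -/
def T_CONZ : Prop :=
  ∀ a : ℂ, a ∉ G4 ∪ G2 → ∃ C : Set ℂ, IsPreconnected C ∧ C ⊆ (G4 ∪ G2)ᶜ ∧ a ∈ C ∧
    ∃ b ∈ C, 12 < ‖b‖

/-- GAM: Laurent approximation on `G1 ∪ G2` -/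
def T_GAM : Prop :=
  ∀ G : ℂ → ℂ, ContinuousOn G (G1 ∪ G2) → ∀ ε > 0, ∃ (p : Polynomial ℂ) (N : ℕ),
    ∀ z ∈ G1 ∪ G2, ‖p.eval z / z ^ N - G z‖ < ε

/-- ZED: polynomial approximation on `G4 ∪ G2` -/
def T_ZED : Prop :=
  ∀ G : ℂ → ℂ, ContinuousOn G (G4 ∪ G2) → ∀ ε > 0, ∃ p : Polynomial ℂ,
    ∀ z ∈ G4 ∪ G2, ‖p.eval z - G z‖ < ε

/-! ## Part 4: the links -/

def T_LA : Prop := Link Y q A1 (1 / 2, 1000)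
def T_LB : Prop := Link A1 (1 / 2, 1000) A2 (100, 1000)
def T_LC : Prop := Link A2 (100, 1000) A3 (100, 0)
def T_LD : Prop := Link A3 (100, 0) A4 (100, 100)
def T_LE : Prop := Link A4 (100, 100) A5 (2, 100)
def T_LF : Prop := Link A5 (2, 100) {(1, 0)} (1, 1)

/-- XI -/
def T_XI : Prop :=
  ∀ η > 0, ∃ Ξ Ψ : E → E, Aut Ξ Ψ ∧ (∀ y ∈ Y, ‖(Ξ y).1 - 1‖ < η ∧ ‖(Ξ y).2‖ < η) ∧ Ξ q = (1, 1)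

/-- EMB -/
def T_EMB : Prop :=
  ∀ (R : ℝ) (p a : E) (ε : ℝ), 0 < R → ‖p‖ < R → ‖a‖ < R → p ≠ a → 0 < ε →
    ∃ φ ψ : E → E, Step R φ ψ ∧ Y ⊆ φ '' ball p ε ∧ φ a = q

/-! ## Part 5: Levi forms -/

/-- PULL -/
def T_PULL : Prop :=
  ∀ (u : E → ℝ) (φ : E → E) (x : E), ContDiffAt ℝ 2 u (φ x) → AnalyticAt ℂ φ x →
    ∀ v w : E, herm (u ∘ φ) x v w = herm u (φ x) (fderiv ℂ φ x v) (fderiv ℂ φ x w)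

/-- LIN -/
def T_LIN : Prop :=
  (∀ (u w : E → ℝ) (x : E), u =ᶠ[𝓝 x] w → herm u x = herm w x) ∧
  (∀ (u w : E → ℝ) (a b : ℝ) (x : E), ContDiffAt ℝ 2 u x → ContDiffAt ℝ 2 w x →
    herm (fun y => a * u y + b * w y) x = a • herm u x + b • herm w x) ∧
  (∀ (c : ℝ) (x : E), herm (fun _ => c) x = 0) ∧
  (∀ (u : E → ℝ) (x : E), ContDiffAt ℝ 2 u x → ∀ v w : E, herm u x v w = herm u x w v) ∧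
  (∀ (u : E → ℝ) (x : E), ContDiffAt ℝ 2 u x → ∀ v w : E,
    herm u x (Complex.I • v) (Complex.I • w) = herm u x v w) ∧
  (∀ u : E → ℝ, ContDiff ℝ ∞ u → ContDiff ℝ ∞ (herm u))

/-- LOGH -/
def T_LOGH : Prop :=
  ∀ (h : E → ℂ) (x : E), AnalyticAt ℂ h x → h x ≠ 0 →
    ContDiffAt ℝ ∞ (fun y => Real.log ‖h y‖) x ∧ herm (fun y => Real.log ‖h y‖) x = 0

/-- LOGS -/
def T_LOGS : Prop :=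
  ∀ (f g : E → ℂ) (δ : ℝ) (x : E), 0 < δ → AnalyticAt ℂ f x → AnalyticAt ℂ g x →
    ∀ v : E, 0 ≤ herm (fun y => Real.log (‖f y‖ ^ 2 + ‖g y‖ ^ 2 + δ)) x v v

/-- CHAIN -/
def T_CHAIN : Prop :=
  ∀ (l : ℝ → ℝ) (s : E → ℝ) (x : E), ContDiffAt ℝ 2 l (s x) → ContDiffAt ℝ 2 s x → ∀ v : E,
    herm (l ∘ s) x v v = deriv l (s x) * herm s x v v +
      deriv (deriv l) (s x) * ((fderiv ℝ s x v) ^ 2 + (fderiv ℝ s x (Complex.I • v)) ^ 2)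

/-- SQ -/
def T_SQ : Prop :=
  ContDiff ℝ ∞ (fun y : E => ‖y.1‖ ^ 2 + ‖y.2‖ ^ 2) ∧
  ∀ x v : E, herm (fun y : E => ‖y.1‖ ^ 2 + ‖y.2‖ ^ 2) x v v = 4 * (‖v.1‖ ^ 2 + ‖v.2‖ ^ 2)

/-- LAM -/
def T_LAM : Prop :=
  ∀ t₁ : ℝ, 0 < t₁ → ∃ (l : ℝ → ℝ) (c : ℝ), ContDiff ℝ ∞ l ∧ (∀ t ≤ 0, l t = 0) ∧
    (∀ t, t₁ ≤ t → l t = t - c) ∧ (∀ t, 0 ≤ deriv l t) ∧ (∀ t, 0 ≤ deriv (deriv l) t) ∧
    ∀ t₀ > 0, ∃ θ > 0, θ ≤ 1 ∧ ∀ t, t₀ ≤ t → θ ≤ deriv l t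

/-! ## Part 6: extension of Kaehler potentials -/

/-- SFUN -/
def T_SFUN : Prop :=
  ∀ (R : ℝ) (φ ψ : E → E), 0 < R → Step R φ ψ →
    ∃ (g : E → ℝ) (κ : ℝ), 0 < κ ∧ ContDiff ℝ ∞ g ∧ (∀ x v : E, κ * ‖v‖ ^ 2 ≤ herm g x v v) ∧
      (∀ x, ‖x‖ ≤ R → g (φ x) < Real.log ‖(φ x).1‖) ∧
      (∀ x, ‖x‖ = R + 1 / 2 → Real.log ‖(φ x).1‖ < g (φ x))

/-- GFUN -/
def T_GFUN : Prop :=
  ∀ (R : ℝ) (φ ψ : E → E), 0 < R → Step R φ ψ →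
    ∃ (G : E → ℝ) (K O : Set E) (κ : ℝ), 0 < κ ∧ ContDiff ℝ ∞ G ∧ IsCompact K ∧ IsOpen O ∧
      K ⊆ φ '' ball 0 (R + 1 / 2) ∧ φ '' closedBall 0 R ⊆ O ∧ O ⊆ K ∧
      (∀ y ∈ O, G y = Real.log ‖y.1‖) ∧ (∀ y v : E, 0 ≤ herm G y v v) ∧
      (∀ y, y ∉ K → ∀ v : E, κ * ‖v‖ ^ 2 ≤ herm G y v v)

/-- KEXT -/
def T_KEXT : Prop :=
  ∀ (R : ℝ) (φ ψ : E → E), 0 < R → Step R φ ψ → ∀ u : E → ℝ, Spsh u →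
    ∃ u' : E → ℝ, Spsh u' ∧
      (∀ x, ‖x‖ ≤ R → ∀ v w : E,
        herm u' (φ x) (fderiv ℂ φ x v) (fderiv ℂ φ x w) = herm u x v w) ∧
      ∃ ρ m : ℝ, 0 < m ∧ ∀ y, ρ ≤ ‖y‖ → ∀ v : E, m ^ 2 * ‖v‖ ^ 2 ≤ herm u' y v v

/-- SEQ -/
def T_SEQ : Prop := Nonempty Tower

/-! ## Part 7: the manifold -/

/-- TRANS -/
def T_TRANS : Prop :=
  ∀ (t : Tower) (i j : ℕ) (y : E), ‖y‖ < t.R i → ‖t.c j (t.ci i y)‖ < t.R j →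
    AnalyticAt ℂ (fun y' => t.c j (t.ci i y')) y ∧
    ∀ v w : E, herm (t.u j) (t.c j (t.ci i y)) (fderiv ℂ (fun y' => t.c j (t.ci i y')) y v)
      (fderiv ℂ (fun y' => t.c j (t.ci i y')) y w) = herm (t.u i) y v w

/-- NEST: nestedness of the charts -/
def T_NEST : Prop :=
  ∀ (t : Tower), (∀ j, 0 < t.R j) ∧
    (∀ i j, i ≤ j → ∀ x, ‖t.c i x‖ ≤ t.R i → ‖t.c j x‖ ≤ t.R j) ∧
    (∀ i j, i < j → ∀ x, ‖t.c i x‖ ≤ t.R i → ‖t.c j x‖ < t.R j)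

/-- MANC -/
def T_MANC : Prop := ∀ t : Tower, IsManifold 𝓘(ℂ, ℂ × ℂ) ω t.Mfd

/-- MANR -/
def T_MANR : Prop := ∀ t : Tower, IsManifold 𝓘(ℝ, ℂ × ℂ) ∞ t.Mfd

/-- DIFF -/
def T_DIFF : Prop :=
  ∀ t : Tower, Nonempty (Diffeomorph 𝓘(ℝ, ℂ × ℂ) 𝓘(ℝ, ℂ × ℂ) t.Mfd (ℂ × ℂ) ∞)

/-- MFD: derivatives of the charts and their inverses, in the preferred charts. -/
def T_MFD : Prop :=
  ∀ (t : Tower) [IsManifold 𝓘(ℝ, ℂ × ℂ) ∞ t.Mfd] (i : ℕ),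
    (∀ y : E, ‖y‖ < t.R i →
      MDifferentiableAt 𝓘(ℝ, ℂ × ℂ) 𝓘(ℝ, ℂ × ℂ) (t.chart i).symm y ∧
      ∀ v : E, (mfderiv 𝓘(ℝ, ℂ × ℂ) 𝓘(ℝ, ℂ × ℂ) (t.chart i).symm y v : ℂ × ℂ)
        = fderiv ℂ (fun y' => t.c (t.idx (t.ci i y)) (t.ci i y')) y v) ∧
    (∀ x : t.Mfd, ‖t.c i x‖ < t.R i →
      MDifferentiableAt 𝓘(ℝ, ℂ × ℂ) 𝓘(ℝ, ℂ × ℂ) (t.chart i) x ∧
      ∀ v : TangentSpace 𝓘(ℝ, ℂ × ℂ) x,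
        (mfderiv 𝓘(ℝ, ℂ × ℂ) 𝓘(ℝ, ℂ × ℂ) (t.chart i) x v : ℂ × ℂ)
          = fderiv ℂ (fun y' => t.c i (t.ci (t.idx x) y')) (t.c (t.idx x) x) (v : ℂ × ℂ))

/-- RIEM -/
def T_RIEM : Prop :=
  ∀ (t : Tower) [IsManifold 𝓘(ℝ, ℂ × ℂ) ∞ t.Mfd],
    ∃ g : ContMDiffRiemannianMetric 𝓘(ℝ, ℂ × ℂ) ∞ (ℂ × ℂ)
      (fun x : t.Mfd => TangentSpace 𝓘(ℝ, ℂ × ℂ) x),
      ∀ (x : t.Mfd) (v w : TangentSpace 𝓘(ℝ, ℂ × ℂ) x), g.inner x v w = t.inn x v w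

/-- KAH -/
def T_KAH : Prop :=
  ∀ (t : Tower) [IsManifold 𝓘(ℝ, ℂ × ℂ) ∞ t.Mfd]
    [RiemannianBundle (fun x : t.Mfd => TangentSpace 𝓘(ℝ, ℂ × ℂ) x)],
    (∀ (x : t.Mfd) (v w : TangentSpace 𝓘(ℝ, ℂ × ℂ) x), inner ℝ v w = t.inn x v w) →
    IsKaehler t.Mfd

/-- DIST -/
def T_DIST : Prop :=
  ∀ (t : Tower) [IsManifold 𝓘(ℝ, ℂ × ℂ) ∞ t.Mfd]
    [RiemannianBundle (fun x : t.Mfd => TangentSpace 𝓘(ℝ, ℂ × ℂ) x)],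
    (∀ (x : t.Mfd) (v w : TangentSpace 𝓘(ℝ, ℂ × ℂ) x), inner ℝ v w = t.inn x v w) →
    ∀ (j : ℕ) (x y : t.Mfd), ‖t.c j x‖ ≤ t.R j → t.R (j + 1) ≤ ‖t.c (j + 1) y‖ →
      1 ≤ riemannianEDist 𝓘(ℝ, ℂ × ℂ) x y

/-- COMP -/
def T_COMP : Prop :=
  ∀ (t : Tower) (m : EMetricSpace t.Mfd),
    m.toUniformSpace.toTopologicalSpace = (inferInstance : TopologicalSpace t.Mfd) →
    (∀ (j : ℕ) (x y : t.Mfd), ‖t.c j x‖ ≤ t.R j → t.R (j + 1) ≤ ‖t.c (j + 1) y‖ →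
      1 ≤ edist x y) → CompleteSpace t.Mfd

/-- NOHOL -/
def T_NOHOL : Prop :=
  ∀ (t : Tower) [IsManifold 𝓘(ℂ, ℂ × ℂ) ω t.Mfd] (f : t.Mfd → ℂ),
    MDifferentiable 𝓘(ℂ, ℂ × ℂ) 𝓘(ℂ, ℂ) f → ∀ x y : t.Mfd, f x = f y

/-- FIN -/
def T_FIN : Prop := Answer

end Pool.Agent.H93.KC
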